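import Pool.Agent.Helper46.NB.Stmts
import Pool.Agent.Helper15.LR.H

/-!
Project NB (MP_2f9829_co), row BNDG.
-/

set_option autoImplicit false

namespace Pool.Agent.Helper34.NB

open Finset
open scoped Classical
open Pool.Agent.Helper46.NB
open Pool.Agent.Helper15.LR

noncomputable section

theorem st_BNDG : ST_BND → ST_BNDG := by
  intro hB V _ _ G _ L hL
  refine lists_of_LC G L ?_
  refine hB V G.edgeSet G.maxDegree _ ?_ ?_ ?_
  · intro v hv
    rw [SimpleGraph.mem_edgeSet] at hv
    exact G.loopless.irrefl v hv
  · intro v
    have h1 : dg G.edgeSet v = G.degree v := by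
      unfold dg nb
      rw [← SimpleGraph.card_neighborFinset_eq_degree]
      refine congrArg Finset.card ?_
      ext u
      simp only [mem_filter, mem_univ, true_and, SimpleGraph.mem_neighborFinset, SimpleGraph.mem_edgeSet]
    rw [h1]
    exact G.degree_le_maxDegree v
  · intro e he
    rw [dif_pos he]
    exact hL ⟨e, he⟩

end

end Pool.Agent.Helper34.NB
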