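import Pool.Agent.Helper46.NB.Stmts

/-!
Project NB (MP_2f9829_co), rows PROD, PICK, P2, E1.
-/

set_option autoImplicit false

namespace Pool.Agent.Helper34.NB

open Finset
open scoped Classical
open Pool.Agent.Helper46.NB

noncomputable section

theorem Pr_eq {V : Type} [Fintype V] {N : ℕ} (P : (Sym2 V → Fin N) → Prop) (inst : DecidablePred P) :
    Pr P = (#(@Finset.filter _ P inst univ) : ℝ) / (Fintype.card (Sym2 V → Fin N) : ℝ) := by
  have h : (fun a => Classical.propDecidable (P a)) = inst := Subsingleton.elim _ _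
  subst h
  rfl

theorem st_PROD : ST_PROD := by
  intro V _ N hN S A
  have hN' : (N : ℝ) ≠ 0 := by
    have : (0 : ℝ) < N := by exact_mod_cast hN
    exact this.ne'
  rw [Pr_eq _ inferInstance]
  have h1 : (univ.filter fun ω : Sym2 V → Fin N => ∀ e ∈ S, ω e ∈ A e) =
      Fintype.piFinset (fun e : Sym2 V => if e ∈ S then A e else univ) := by
    ext ω
    simp only [mem_filter, mem_univ, true_and, Fintype.mem_piFinset]
    constructor
    · intro h e
      by_cases he : e ∈ S
      · rw [if_pos he]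
        exact h e he
      · rw [if_neg he]
        exact mem_univ _
    · intro h e he
      have := h e
      rw [if_pos he] at this
      exact this
  rw [h1, Fintype.card_piFinset]
  have h2 : Fintype.card (Sym2 V → Fin N) = ∏ _e : Sym2 V, N := by
    rw [Fintype.card_pi]
    refine Finset.prod_congr rfl (fun _ _ => ?_)
    rw [Fintype.card_fin]
  rw [h2]
  push_cast
  rw [← Finset.prod_div_distrib]
  rw [← Finset.prod_subset (Finset.subset_univ S)]
  · refine Finset.prod_congr rfl (fun e he => ?_)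
    rw [if_pos he]
  · intro e _ he
    rw [if_neg he, card_univ, Fintype.card_fin]
    exact div_self hN'

theorem st_PICK : ST_PICK := by
  intro V _ E L N hLN
  refine ⟨fun e a => if h : a.val < #(L e) then some ((L e).equivFin.symm ⟨a.val, h⟩ : ℕ) else none, ?_⟩
  intro e he
  constructor
  · intro c hc
    rw [Finset.card_eq_one]
    have hlt : ((L e).equivFin ⟨c, hc⟩).val < N := lt_of_lt_of_le ((L e).equivFin ⟨c, hc⟩).2 (hLN e he)
    refine ⟨⟨((L e).equivFin ⟨c, hc⟩).val, hlt⟩, ?_⟩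
    ext a
    simp only [mem_filter, mem_univ, true_and, mem_singleton]
    constructor
    · intro h
      by_cases ha : a.val < #(L e)
      · rw [dif_pos ha] at h
        have h3 : ((L e).equivFin.symm ⟨a.val, ha⟩) = ⟨c, hc⟩ := Subtype.ext (Option.some.inj h)
        have h4 : (⟨a.val, ha⟩ : Fin #(L e)) = (L e).equivFin ⟨c, hc⟩ := by
          rw [← h3, Equiv.apply_symm_apply]
        have h5 : a.val = ((L e).equivFin ⟨c, hc⟩).val := congrArg (fun x : Fin #(L e) => x.val) h4
        exact Fin.ext h5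
      · rw [dif_neg ha] at h
        exact absurd h (by simp)
    · intro h
      subst h
      have h5 : ((L e).equivFin ⟨c, hc⟩).val < #(L e) := ((L e).equivFin ⟨c, hc⟩).2
      rw [dif_pos h5]
      have h6 : (L e).equivFin.symm ⟨((L e).equivFin ⟨c, hc⟩).val, h5⟩ = ⟨c, hc⟩ := by
        rw [Fin.eta, Equiv.symm_apply_apply]
      rw [h6]
  · intro a c h
    dsimp only at h
    by_cases ha : a.val < #(L e)
    · rw [dif_pos ha] at h
      have h3 := Option.some.inj h
      rw [← h3]
      exact ((L e).equivFin.symm ⟨a.val, ha⟩).2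
    · rw [dif_neg ha] at h
      exact absurd h (by simp)

theorem Lost_iff {V : Type} {N : ℕ} {E : Finset (Sym2 V)} {L : Sym2 V → Finset ℕ}
    {pick : Sym2 V → Fin N → Option ℕ} (hp : IsPick E L N pick) (ω : Sym2 V → Fin N) (v : V) (c : ℕ) :
    Lost E pick ω v c ↔ ∃ e ∈ T E L v c, Ret E pick ω e c := by
  constructor
  · rintro ⟨e, hv, hr⟩
    refine ⟨e, ?_, hr⟩
    unfold T
    rw [mem_filter]
    exact ⟨hr.1, hv, (hp e hr.1).2 _ _ hr.2.1⟩
  · rintro ⟨e, he, hr⟩
    unfold T at he
    rw [mem_filter] at he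
    exact ⟨e, he.2.1, hr⟩

theorem st_P2 : ST_P1 → ST_P2 := by
  intro hP1 V _ N hN E L l t D pick hreg hp v c hne
  have hT : #(T E L v c) = t := by
    rcases hreg.col v c with h | h
    · exact absurd h hne.ne_empty
    · exact h
  have h1 : (univ.filter fun ω : Sym2 V → Fin N => Lost E pick ω v c) =
      (T E L v c).biUnion (fun e => univ.filter fun ω : Sym2 V → Fin N => Ret E pick ω e c) := by
    ext ω
    simp only [mem_filter, mem_univ, true_and, mem_biUnion]
    exact Lost_iff hp ω v c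
  have h2 : #(univ.filter fun ω : Sym2 V → Fin N => Lost E pick ω v c) =
      ∑ e ∈ T E L v c, #(univ.filter fun ω : Sym2 V → Fin N => Ret E pick ω e c) := by
    rw [h1]
    refine Finset.card_biUnion ?_
    intro e he e' he' hne
    refine Finset.disjoint_left.mpr ?_
    intro ω hω hω'
    simp only [mem_filter, mem_univ, true_and] at hω hω'
    rw [Finset.mem_coe] at he he'
    unfold T at he he'
    rw [mem_filter] at he he'
    exact hω.2.2 e' he'.1 ⟨hne, v, he.2.1, he'.2.1⟩ hω'.2.1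
  have h3 : Pr (fun ω : Sym2 V → Fin N => Lost E pick ω v c) =
      ∑ e ∈ T E L v c, Pr (fun ω : Sym2 V → Fin N => Ret E pick ω e c) := by
    unfold Pr
    rw [h2]
    push_cast
    rw [Finset.sum_div]
  rw [h3, ← hT, ← nsmul_eq_mul, ← Finset.sum_const]
  rw [hT]
  refine Finset.sum_congr rfl (fun e he => ?_)
  unfold T at he
  rw [mem_filter] at he
  exact hP1 V N hN E L l t D pick hreg hp e he.1 c he.2.2

theorem Pr_or {V : Type} [Fintype V] {N : ℕ} (P Q : (Sym2 V → Fin N) → Prop) :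
    Pr (fun ω => P ω ∨ Q ω) = Pr P + Pr Q - Pr (fun ω => P ω ∧ Q ω) := by
  rw [Pr_eq (fun ω => P ω ∨ Q ω) inferInstance, Pr_eq (fun ω => P ω ∧ Q ω) inferInstance,
    Pr_eq P inferInstance, Pr_eq Q inferInstance, Finset.filter_or, Finset.filter_and]
  have h := Finset.card_union_add_card_inter (univ.filter P) (univ.filter Q)
  have h' : (#(univ.filter P ∪ univ.filter Q) : ℝ) = #(univ.filter P) + #(univ.filter Q) -
      #(univ.filter P ∩ univ.filter Q) := by
    rw [eq_sub_iff_add_eq]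
    exact_mod_cast h
  rw [h']
  ring

theorem Av_count {V : Type} [Fintype V] {N : ℕ} (S : Finset ℕ) (P : ℕ → (Sym2 V → Fin N) → Prop) :
    Av (fun ω => (#(S.filter fun c => P c ω) : ℝ)) = ∑ c ∈ S, Pr (P c) := by
  unfold Av Pr
  rw [← Finset.sum_div]
  congr 1
  have h1 : ∀ ω : Sym2 V → Fin N, (#(S.filter fun c => P c ω) : ℝ) =
      ∑ c ∈ S, if P c ω then (1 : ℝ) else 0 := by
    intro ω
    rw [Finset.card_filter]
    push_cast
    rfl
  simp only [h1]
  rw [Finset.sum_comm]
  refine Finset.sum_congr rfl (fun c _ => ?_)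
  rw [Finset.card_filter]
  push_cast
  rfl

theorem st_E1 : ST_P2 → ST_P3 → ST_E1 := by
  intro hP2 hP3 V _ E L l t D pick hl htl hreg hp f hf hLf
  have hN : 2 ≤ 4 * l := by omega
  have hlR : (1 : ℝ) ≤ l := by exact_mod_cast hl
  have htR : (t : ℝ) ≤ l := by exact_mod_cast htl
  have ht0 : (0 : ℝ) ≤ t := Nat.cast_nonneg t
  have h1 : Av (XX E L pick f) = ∑ c ∈ L f, Pr (fun ω => ∃ v ∈ f, Lost E pick ω v c) :=
    Av_count (L f) (fun c ω => ∃ v ∈ f, Lost E pick ω v c)
  rw [h1]
  induction f using Sym2.ind with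
  | _ v w =>
  have hvw : v ≠ w := by
    intro h
    exact hreg.loop _ hf (by rw [h]; exact Sym2.mk_isDiag_iff.mpr rfl)
  have hbound : ∀ c ∈ L s(v, w), Pr (fun ω => ∃ u ∈ s(v, w), Lost E pick ω u c) ≤
      2 * (t * th (4 * l) t) - ((t : ℝ) - 1) * ((t : ℝ) - 2) * th (4 * l) t ^ 2 := by
    intro c hc
    have hv : (T E L v c).Nonempty := ⟨s(v, w), by
      unfold T
      rw [mem_filter]
      exact ⟨hf, Sym2.mem_mk_left _ _, hc⟩⟩
    have hw : (T E L w c).Nonempty := ⟨s(v, w), by
      unfold T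
      rw [mem_filter]
      exact ⟨hf, Sym2.mem_mk_right _ _, hc⟩⟩
    have h2 : (fun ω : Sym2 V → Fin (4 * l) => ∃ u ∈ s(v, w), Lost E pick ω u c) =
        fun ω => Lost E pick ω v c ∨ Lost E pick ω w c := by
      funext ω
      apply propext
      constructor
      · rintro ⟨u, hu, hl⟩
        rcases Sym2.mem_iff.mp hu with h | h
        · left
          rw [← h]
          exact hl
        · right
          rw [← h]
          exact hl
      · rintro (h | h)
        · exact ⟨v, Sym2.mem_mk_left _ _, h⟩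
        · exact ⟨w, Sym2.mem_mk_right _ _, h⟩
    rw [h2, Pr_or, hP2 V (4 * l) hN E L l t D pick hreg hp v c hv,
      hP2 V (4 * l) hN E L l t D pick hreg hp w c hw]
    have h3 := hP3 V (4 * l) hN E L l t D pick hreg hp _ hf c hc v (Sym2.mem_mk_left _ _) w
      (Sym2.mem_mk_right _ _) hvw
    linarith
  refine le_trans (Finset.sum_le_sum hbound) ?_
  rw [Finset.sum_const, hLf, nsmul_eq_mul]
  have hth0 : 0 ≤ th (4 * l) t := by
    unfold th
    have : (1 : ℝ) / ((4 * l : ℕ) : ℝ) ≤ 1 := by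
      rw [div_le_one (by push_cast; linarith)]
      push_cast
      linarith
    have h5 : 0 ≤ (1 : ℝ) - 1 / ((4 * l : ℕ) : ℝ) := by linarith
    have h6 : 0 ≤ (1 : ℝ) / ((4 * l : ℕ) : ℝ) := by positivity
    exact mul_nonneg h6 (pow_nonneg h5 _)
  have hth1 : l * th (4 * l) t ≤ 1 / 4 := by
    unfold th
    have h7 : (1 : ℝ) / ((4 * l : ℕ) : ℝ) ≤ 1 := by
      rw [div_le_one (by push_cast; linarith)]
      push_cast
      linarith
    have h6 : 0 ≤ (1 : ℝ) / ((4 * l : ℕ) : ℝ) := by positivity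
    have h5 : (1 - (1 : ℝ) / ((4 * l : ℕ) : ℝ)) ^ (2 * t - 2) ≤ 1 := pow_le_one₀ (by linarith) (by linarith)
    have h8 : (l : ℝ) * (1 / ((4 * l : ℕ) : ℝ)) = 1 / 4 := by
      push_cast
      field_simp
    calc (l : ℝ) * (1 / ((4 * l : ℕ) : ℝ) * (1 - 1 / ((4 * l : ℕ) : ℝ)) ^ (2 * t - 2))
        = (1 / 4) * (1 - 1 / ((4 * l : ℕ) : ℝ)) ^ (2 * t - 2) := by rw [← mul_assoc, h8]
      _ ≤ 1 / 4 * 1 := by gcongr
      _ = 1 / 4 := by ring
  unfold KK
  set x := th (4 * l) t with hx
  have hlx0 : 0 ≤ (l : ℝ) * x := mul_nonneg (by linarith) hth0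
  have htx : (t : ℝ) * x ≤ l * x := mul_le_mul_of_nonneg_right htR hth0
  have htx0 : 0 ≤ (t : ℝ) * x := mul_nonneg ht0 hth0
  have key : (l : ℝ) * x * (t * x) ≤ 1 / 16 := by nlinarith
  have hlx2 : 0 ≤ (l : ℝ) * x ^ 2 := mul_nonneg (by linarith) (sq_nonneg x)
  nlinarith [key, hlx2]

end

end Pool.Agent.Helper34.NB
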